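import Pool.Agent.N977.S.Main

/-!
# Navier-Stokes with an arbitrarily small additional term of order `2 + log`: breakdown for an open
and dense set of three-dimensional data

For `p > 1` and `δ > 0` there is one bilinear operator `K` in the class `LowE 2 p δ` (energy
conserving, divergence free, size `δ`, order `2` with a logarithm of power `p`, in the trilinear
sense) such that for every smooth periodic field `U`, all `ν > 0`, `0 < ε ≤ 1`, `T > 0`, `R` and all
large `j`: no smooth periodic solution of the three-dimensional Navier-Stokes equations with the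
additional term `K(u, u)`, whose initial value is in the ball of radius `R` around
`U + ε dat2 (2 ^ j)` (in the norm `Wn`, six derivatives), exists on a time interval longer
than `T`.
-/

open MeasureTheory Set Filter Topology

namespace Pool.Agent.Results.MP_6bf1e5_an.DenseBlowup

open H459R3.NS Pool.Agent.N977.Q Pool.Agent.N977.S
open Pool.Agent.N977.K (SolK)

/-- the triangle inequality -/
theorem un_sub_le {u v : V → V} (hu : SPV u) (hv : SPV v) (k : K3) :
    un (fun x => u x - v x) k ≤ un u k + un v k := by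
  have e : ∀ i, fr (fun x => u x i - v x i) k = fr (fun x => u x i) k - fr (fun x => v x i) k :=
    fun i => fr_sub (spv_sp hu i).cont (spv_sp hv i).cont k
  have h1 : un (fun x => u x - v x) k ^ 2 ≤ (un u k + un v k) ^ 2 := by
    have e2 : un (fun x => u x - v x) k ^ 2
        = ∑ i, ‖fr (fun x => u x i) k - fr (fun x => v x i) k‖ ^ 2 := by
      rw [un_sq]
      refine Finset.sum_congr rfl fun i _ => ?_
      rw [← e i]
      rfl
    rw [e2]
    have h2 : ∀ i, ‖fr (fun x => u x i) k - fr (fun x => v x i) k‖ ^ 2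
        ≤ ‖fr (fun x => u x i) k‖ ^ 2 + ‖fr (fun x => v x i) k‖ ^ 2
          + 2 * (‖fr (fun x => u x i) k‖ * ‖fr (fun x => v x i) k‖) := by
      intro i
      have h3 := norm_sub_le (fr (fun x => u x i) k) (fr (fun x => v x i) k)
      have h4 := pow_le_pow_left₀ (norm_nonneg _) h3 2
      linarith [add_sq ‖fr (fun x => u x i) k‖ ‖fr (fun x => v x i) k‖]
    have h5 : ∑ i, ‖fr (fun x => u x i) k‖ * ‖fr (fun x => v x i) k‖ ≤ un u k * un v k := by
      have := Finset.sum_mul_sq_le_sq_mul_sq Finset.univ (fun i => ‖fr (fun x => u x i) k‖)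
        (fun i => ‖fr (fun x => v x i) k‖)
      rw [← un_sq, ← un_sq, ← mul_pow] at this
      exact abs_le_of_sq_le_sq' this (mul_nonneg (un_nonneg u k) (un_nonneg v k)) |>.2
    refine (Finset.sum_le_sum fun i _ => h2 i).trans ?_
    rw [Finset.sum_add_distrib, Finset.sum_add_distrib, ← Finset.mul_sum, ← un_sq, ← un_sq]
    nlinarith
  exact abs_le_of_sq_le_sq' h1 (add_nonneg (un_nonneg u k) (un_nonneg v k)) |>.2

theorem Wn_sub_le {u v : V → V} (hu : SPV u) (hv : SPV v) :
    Wn (fun x => u x - v x) ≤ Wn u + Wn v := by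
  have hs : SPV (fun x => u x - v x) := sp_spv fun i => (spv_sp hu i).sub (spv_sp hv i)
  unfold Wn
  rw [← (Wn_summable hu).tsum_add (Wn_summable hv)]
  refine (Wn_summable hs).tsum_le_tsum (fun k => ?_) ((Wn_summable hu).add (Wn_summable hv))
  have h1 := mul_le_mul_of_nonneg_left (un_sub_le hu hv k)
    (pow_nonneg (by linarith [len_nonneg k] : 0 ≤ 1 + len k) 6)
  rw [← mul_add]
  exact h1

theorem dat2_abs (N : ℕ) (x : V) (i : Fin 3) : |dat2 N x i| ≤ 2 := by
  by_cases hi : i = 2
  · subst hi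
    rw [dat2_two]
    apply abs_le_of_sq_le_sq _ (by norm_num)
    linarith [d2_sq_le N x]
  · rw [dat2_ne N x hi]
    norm_num

theorem dat2_div (N : ℕ) (x : V) : ∑ i, pd i (fun y => dat2 N y i) x = 0 := by
  have h2 : pd 2 (fun y => dat2 N y 2) x = 0 := by
    refine pd_two_ind (spv_sp (dat2_spv N) 2) (fun a y => ?_) x
    unfold dat2
    simp
  have z : ∀ i : Fin 3, i ≠ 2 → pd i (fun y => dat2 N y i) x = 0 := fun i hi => by
    simp_rw [dat2_ne N _ hi]
    simp [pd]
  rw [Fin.sum_univ_three, z 0 (by decide), z 1 (by decide), h2]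
  simp

/-- No smooth solution with the initial value `v` exists on a time interval longer than `T`. -/
def Brk (ν T : ℝ) (K : (V → V) → (V → V) → V → V) (v : V → V) : Prop :=
  ∀ (T₂ : ℝ) (u : ℝ → V → V) (q : ℝ → V → ℝ), SolK ν T₂ K u q → u 0 = v → T₂ ≤ T

theorem result {p δ : ℝ} (hp : 1 < p) (hδ : 0 < δ) :
    (∀ (N : ℕ) (x : V), (∀ i, |dat2 N x i| ≤ 2) ∧ ∑ i, pd i (fun y => dat2 N y i) x = 0) ∧
    ∃ K : (V → V) → (V → V) → V → V, LowE 2 p δ K ∧
      ∀ U : V → V, SPV U → ∀ ν ε T R : ℝ, 0 < ν → 0 < ε → ε ≤ 1 → 0 < T →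
        ∃ j₀ : ℕ, ∀ j : ℕ, j₀ ≤ j → ∀ v : V → V,
          Wn (fun x => v x - (U x + ε • dat2 (2 ^ j) x)) ≤ R → Brk ν T K v := by
  refine ⟨fun N x => ⟨dat2_abs N x, dat2_div N x⟩, ?_⟩
  obtain ⟨K, hK, h⟩ := main hp hδ
  refine ⟨K, hK, fun U hU ν ε T R hν hε hε1 hT => ?_⟩
  obtain ⟨j₀, hj₀⟩ := h ν ε T (R + Wn U) hν hε hε1 hT
  refine ⟨j₀, fun j hj v hR T₂ u q hs huv => ?_⟩
  subst huv
  by_contra hcon
  push Not at hcon
  have h0 : (0 : ℝ) ∈ Ico 0 T₂ := ⟨le_rfl, hT.trans hcon⟩
  have hu := sol_spv hs h0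
  have hd : SPV (fun x => ε • dat2 (2 ^ j) x) := by
    refine sp_spv fun i => ?_
    exact sp_cmul (spv_sp (dat2_spv _) i) ε
  have h1 : SPV (fun x => u 0 x - (U x + ε • dat2 (2 ^ j) x)) :=
    sp_spv fun i => (spv_sp hu i).sub ((spv_sp hU i).add (spv_sp hd i))
  have hnU : SPV (fun x => (-1 : ℝ) • U x) := by
    refine sp_spv fun i => ?_
    exact sp_cmul (spv_sp hU i) (-1)
  have h2 := Wn_sub_le h1 hnU
  have e1 : (fun x => u 0 x - (U x + ε • dat2 (2 ^ j) x) - (-1 : ℝ) • U x)
      = fun x => u 0 x - ε • dat2 (2 ^ j) x := by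
    funext x
    rw [neg_one_smul]
    abel
  have e2 : Wn (fun x => (-1 : ℝ) • U x) = Wn U := by
    unfold Wn
    refine tsum_congr fun k => ?_
    congr 1
    unfold un
    congr 1
    refine Finset.sum_congr rfl fun i _ => ?_
    have e3 : fr (fun x => ((-1 : ℝ) • U x) i) k = (-1 : ℝ) * fr (fun x => U x i) k :=
      fr_smul (-1) (fun x => U x i) k
    rw [e3]
    simp
  rw [e1, e2] at h2
  have := hj₀ j hj T₂ u q hs (h2.trans (by linarith))
  linarith

end Pool.Agent.Results.MP_6bf1e5_an.DenseBlowup
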