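import Pool.Agent.N977.P.Fin2

/-!
# Navier-Stokes with an arbitrarily small additional term, of the order of the convection term up to
logarithms: blow-up for an open and dense set of three-dimensional data, critical power of the
logarithm

(1) For `p > 1`, `δ > 0`, `N` there is one bilinear operator `K`: energy conserving, divergence free,
of size `δ`, of order `2` with a logarithm of power `p` in the trilinear `L²` sense (`LowE 2 p δ`), of
order `1` with a logarithm of power `p + 250` in the sense with one factor in `L^∞` (`LowS`),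
commuting with the translations along the third axis, acting only on the frequencies `|k| ≥ N`, such
that for all `ν, ε, T > 0`, `R` and every smooth periodic `U` there is `w`, `‖w‖ ≤ ε` in `L²`, such
that for all smooth divergence-free data `v` in the ball of radius `R` around `U + w` in the norm `Wn`
(six derivatives) the maximal smooth solution of the Navier-Stokes equations with the additional term
`K(u, u)` ends before the time `T`, with unbounded velocity.

(2) Uniqueness and local existence of smooth solutions, for all `K` in the class.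

(3) For `p ≤ 1` and all `K` in the class which commute with the translations along the third axis,
smooth data which do not depend on the third variable have global smooth solutions.

Parts of the proof are due to helpers 27, 34, 42, 61, 79, 136, 279, 300, 319, 335, 353, 391, 433, 441,
456, 457, 619, 645, 655, 724, 738, 776, 835, 878, 930, 937, 966.
-/

open MeasureTheory Set Filter Topology

namespace Pool.Agent.Results.MP_6bf1e5_an.DenseLogBlowup

open H459R3.NS Pool.Agent.N977.Q Pool.Agent.N977.S Pool.Agent.N977.P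
open Pool.Agent.N977.K (SolK)

theorem result :
    (∀ p δ N : ℝ, 1 < p → 0 < δ → ∃ K : (V → V) → (V → V) → V → V,
      LowE 2 p δ K ∧ LowS 1 (p + 250) δ K ∧ Sh3 K ∧ Hi N K ∧
      ∀ U : V → V, SPV U → ∀ ν ε T R : ℝ, 0 < ν → 0 < ε → 0 < T →
        ∃ w : V → V, SPV w ∧ (∀ x, ∑ i, pd i (fun y => w y i) x = 0) ∧
          (∑ i, ∫ x in cube, w x i ^ 2 ≤ ε ^ 2) ∧ (∀ x, w x 0 = 0 ∧ w x 1 = 0) ∧
          (∀ (a : ℝ) (x : V), w (x + Pi.single 2 a) = w x) ∧
          ∀ v : V → V, SPV v → (∀ x, ∑ i, pd i (fun y => v y i) x = 0) →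
            Wn (fun x => v x - (U x + w x)) ≤ R → Blow ν T K v) ∧
    (∀ (p δ : ℝ) (K : (V → V) → (V → V) → V → V), 0 ≤ p → LowE 2 p δ K → ∀ ν : ℝ, 0 < ν →
      (∀ (T : ℝ) (u u' : ℝ → V → V) (q q' : ℝ → V → ℝ), SolK ν T K u q → SolK ν T K u' q' →
        u 0 = u' 0 → ∀ t ∈ Ico 0 T, u t = u' t) ∧
      (∀ v : V → V, SPV v → (∀ x, ∑ i, pd i (fun y => v y i) x = 0) →
        ∃ T : ℝ, 0 < T ∧ ∃ (u : ℝ → V → V) (q : ℝ → V → ℝ), SolK ν T K u q ∧ u 0 = v)) ∧
    (∀ (p δ : ℝ) (K : (V → V) → (V → V) → V → V), 0 ≤ p → p ≤ 1 → 0 ≤ δ → LowE 2 p δ K →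
      Sh3 K → ∀ ν : ℝ, 0 < ν → ∀ v : V → V, SPV v →
      (∀ x, ∑ i, pd i (fun y => v y i) x = 0) → (∀ (a : ℝ) (x : V), v (x + Pi.single 2 a) = v x) →
        ∃ (u : ℝ → V → V) (q : ℝ → V → ℝ), u 0 = v ∧ ∀ T : ℝ, SolK ν T K u q) :=
  ⟨fun _ _ N hp hδ => stable hp hδ N,
    fun p δ K hp hK ν hν => Pool.Agent.N319.LE.le_ p δ K hp hK ν hν,
    fun _ _ _ hp hp1 hδ hK hsh _ hν _ hv hdv hi => glob hp hp1 hδ hK hsh hν hv hdv hi⟩

end Pool.Agent.Results.MP_6bf1e5_an.DenseLogBlowup
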