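import Pool.Agent.N977.H.Fin

/-!
The generalized parabolic Hausdorff measures `H^h` of the singular set of a suitable weak periodic
solution of the Navier-Stokes equations vanish for every gauge `h` with `∫₀ dr / h(r) = ∞` (and
`r / h(r)` nondecreasing), for example `h(r) = r log (1 / r)` or `h(r) = r log (1 / r) log log (1 / r)`.
The Caffarelli-Kohn-Nirenberg theorem is the case `h(r) = r`.
For the gauge `r (1 + |log r|)` the hypotheses are verified in `Pool.Agent.N977.H.logN`.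

`V = Fin 3 → ℝ` with the maximum norm. See the claim file for the definitions.
-/

open MeasureTheory Set
open scoped ENNReal

namespace Pool.Agent.Results.MP_6bf1e5_an.GaugeCKN

open H459R3.NS W221.NS Pool.Agent.Y8

/-- Let `(u, p)` be a suitable weak periodic solution with viscosity `ν` on `(0, T) × ℝ³` and let
`h > 0` on `(0, r₀]` be such that `r / h(r)` is nondecreasing and `∫₀ dr / h(r) = ∞`. For every
`ε > 0`, the singular set in `(0, T) × ℝ³` is covered by countably many parabolic cylinders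
`{ν |t - sᵢ| < rᵢ², ‖x - yᵢ‖ < rᵢ}` with `rᵢ ≤ min ε r₀` and `∑ h(rᵢ) ≤ ε`. -/
theorem result (ν T E D : ℝ) (G : Set ℝ) (u : ℝ → V → V) (p : ℝ → V → ℝ) (hν : 0 < ν)
    (hu : Turb ν T E D G u p) (h : ℝ → ℝ) (r₀ : ℝ) (hr₀ : 0 < r₀)
    (hpos : ∀ r ∈ Ioc 0 r₀, 0 < h r) (hmono : MonotoneOn (fun r => r / h r) (Ioc 0 r₀))
    (hdiv : ∫⁻ r in Ioc 0 r₀, ENNReal.ofReal (1 / h r) = ⊤) (ε : ℝ) (hε : 0 < ε) :
    ∃ (ι : Type) (_ : Countable ι) (s : ι → ℝ) (y : ι → V) (r : ι → ℝ),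
      (∀ i, 0 < r i ∧ r i ≤ r₀ ∧ r i ≤ ε) ∧
      ∑' i, ENNReal.ofReal (h (r i)) ≤ ENNReal.ofReal ε ∧
      ∀ t ∈ Ioo 0 T, ∀ x : V, SingPt G u t x →
        ∃ i, ν * |t - s i| < r i ^ 2 ∧ ‖x - y i‖ < r i := by
  obtain ⟨ι, hι, s, y, r, hr, hs, hc⟩ := Pool.Agent.N977.H.gaugeN hν hu hr₀ hpos hmono hdiv
    (ε := min ε r₀) (lt_min hε hr₀)
  exact ⟨ι, hι, s, y, r, fun i => ⟨(hr i).1, (hr i).2.trans (min_le_right _ _),
    (hr i).2.trans (min_le_left _ _)⟩, hs.trans (ENNReal.ofReal_le_ofReal (min_le_left _ _)), hc⟩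

end Pool.Agent.Results.MP_6bf1e5_an.GaugeCKN
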