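import Pool.Agent.N977.Q.Main2
import Pool.Agent.N977.Q.Tw4

/-!
The exact critical power of the logarithm for perturbations of order two of the three-dimensional
Navier-Stokes equations, for initial data which do not depend on the third variable. The
perturbations `K` are bilinear, commute with translations, are Galilean invariant and conserve the
energy and the helicity.

`V = Fin 3 → ℝ`. See the claim file for the definitions.
-/

open MeasureTheory Set

namespace Pool.Agent.Results.MP_6bf1e5_an.LogOrderTwo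

open H459R3.NS Pool.Agent.N977.Q
open Pool.Agent.N977.K (SolK)

/-- The critical power of the logarithm is `p = 1`, for every size `δ > 0` of the perturbation.

For `p > 1` there is a perturbation `K` of the class `Low 2 p δ` such that for all `ν > 0`,
`0 < ε ≤ 1` and `T > 0` and all large `j` the smooth solution `u` of the Navier-Stokes equations
with viscosity `ν` and perturbation `K` with the initial datum `ε * dat (2 ^ j)`, which does not
depend on the third variable, blows up at a time `T₁ ≤ T`: all its Sobolev norms of positive order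
are unbounded on `[0, T₁)`, and every smooth solution with this datum on an interval `[0, T₂)`
satisfies `T₂ ≤ T₁` and equals `u`. The convection term of `u` vanishes.

For `0 ≤ p ≤ 1`, all perturbations `K` of the class `Low 2 p δ`, all `ν > 0` and all smooth initial
data which do not depend on the third variable, all Sobolev norms of the smooth solution are
bounded on every bounded time interval `[0, T)` on which it exists. -/
theorem result (p δ : ℝ) (hp : 0 ≤ p) (hδ : 0 < δ) :
    (1 < p → ∃ K : (V → V) → (V → V) → V → V, Low 2 p δ K ∧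
      ∀ ν ε T : ℝ, 0 < ν → 0 < ε → ε ≤ 1 → 0 < T → ∃ j₀ : ℕ, ∀ j : ℕ, j₀ ≤ j →
      ∃ T₁ : ℝ, 0 < T₁ ∧ T₁ ≤ T ∧ ∃ u : ℝ → V → V, SolK ν T₁ K u (fun _ _ => 0) ∧
        (∀ x, u 0 x = ε • dat (2 ^ j) x) ∧
        (∀ t ∈ Ico 0 T₁, ∀ x i, ∑ j, u t x j * pd j (fun y => u t y i) x = 0) ∧
        (∀ s : ℝ, 0 < s → ∀ C : ℝ, ∃ t ∈ Ico 0 T₁, C < Hn s 0 (u t)) ∧
        ∀ (T₂ : ℝ) (v : ℝ → V → V) (q : ℝ → V → ℝ), SolK ν T₂ K v q →
          (∀ x, v 0 x = ε • dat (2 ^ j) x) →
          T₂ ≤ T₁ ∧ ∀ t ∈ Ico 0 T₂, ∀ x, v t x = u t x) ∧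
    (p ≤ 1 → ∀ K : (V → V) → (V → V) → V → V, Low 2 p δ K →
      ∀ (ν T : ℝ) (u : ℝ → V → V) (q : ℝ → V → ℝ), 0 < ν → SolK ν T K u q →
        (∀ (a : ℝ) (x : V), u 0 (x + Pi.single 2 a) = u 0 x) →
        ∀ s : ℝ, ∃ B : ℝ, ∀ t ∈ Ico 0 T, Hn s 0 (u t) ≤ B) := by
  refine ⟨fun hp1 => ?_, fun hp1 K hK ν T u q hν hs h0 s =>
    reg_ind hK hp hp1 hδ.le hν hs h0 s⟩
  obtain ⟨K, hK, h⟩ := main2 (b := 2) le_rfl hp1 hδ
  refine ⟨K, by exact_mod_cast hK, fun ν ε T hν hε hε1 hT => ?_⟩
  exact h ν (Or.inl ⟨hν, rfl⟩) ε T hε hε1 hT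

end Pool.Agent.Results.MP_6bf1e5_an.LogOrderTwo
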