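import Pool.Agent.R210.M8

/-!
Regularity of periodic solutions of the Navier-Stokes equations whose vorticity lines (the lines
spanned by the vorticity vectors) are Hoelder continuous in space with exponent `β ≥ 1/3`, where the
vorticity is large, with a time dependent constant `c` in `L^(6/(3β - 1))(0, T)`; and for every
exponent `0 < β ≤ 1` if the condition holds for all vorticity vectors, or for the directions instead
of the lines.

The classical theorem of Beirão da Veiga and Berselli needs `β ≥ 1/2` and, for constants which depend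
on the time, `c` in `L^(4/(2β - 1))(0, T)`; for `β < 1` this is a stronger condition. The proof is in
`Pool/Agent/R210/`.
-/

open MeasureTheory Set
open H459R3.NS

namespace Pool.Agent.N977.Shelf.VorticityLineCoherence

/-- The Euclidean length of a vector of `ℝ³`. -/
noncomputable def len (a : V) : ℝ := Real.sqrt (∑ i, a i ^ 2)

/-- The curl of a vector field. -/
noncomputable def curl (v : V → V) (x : V) : V :=
  ![pd 1 (fun y => v y 2) x - pd 2 (fun y => v y 1) x,
    pd 2 (fun y => v y 0) x - pd 0 (fun y => v y 2) x,
    pd 0 (fun y => v y 1) x - pd 1 (fun y => v y 0) x]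

/-- Where `|W| > K`, the sine of the angle between `W(x)` and `W(y)` is at most `c |x - y|^β`. (For
`K < 0` this is required at all points where `W` does not vanish.) -/
def LineCoherent (W : V → V) (c β K : ℝ) : Prop := ∀ x y : V, K < len (W x) → K < len (W y) →
  len (crossProduct (W x) (W y)) ≤ c * len (x - y) ^ β * (len (W x) * len (W y))

/-- Where `|W| > K`, the unit vectors `W(x)/|W(x)|` and `W(y)/|W(y)|` have distance at most
`c |x - y|^β` (the denominators are cleared). -/
def DirCoherent (W : V → V) (c β K : ℝ) : Prop := ∀ x y : V, K < len (W x) → K < len (W y) →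
  len (len (W y) • W x - len (W x) • W y) ≤ c * len (x - y) ^ β * (len (W x) * len (W y))

/-- Let `(u, p)` be a smooth `1`-periodic solution of the Navier-Stokes equations on `[0, T)` with
viscosity `ν > 0` and without force. Suppose that
* `1/3 ≤ β < 1`, and for almost every `t` in `(0, T)` the sine of the angle between the vorticities at
  `x` and `y` is at most `c(t) |x - y|^β` whenever both are longer than `K`, where
  `c` is in `L^(6/(3β - 1))(0, T)` (that is bounded if `β = 1/3`); or
* `0 < β ≤ 1`, and for almost every `t` in `(0, T)` either this sine is at most `c(t) |x - y|^β` for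
  all `x` and `y`, or the vorticity directions at `x` and `y` have distance at most `c(t) |x - y|^β`
  whenever both vorticities are longer than `K`, where `c` is in `L^(2(1 + β)/β²)(0, T)`.

Then the enstrophy and the velocity are bounded on `[0, T)`. -/
theorem result {ν T : ℝ} {u : ℝ → V → V} {p : ℝ → V → ℝ} (hν : 0 < ν) (h : IsSol ν T u p)
    {β K : ℝ} {c : ℝ → ℝ}
    (hcoh : (1 / 3 ≤ β ∧ β < 1 ∧
        MemLp c (6 / ENNReal.ofReal (3 * β - 1)) (volume.restrict (Ioo 0 T)) ∧
        ∀ᵐ t ∂volume.restrict (Ioo 0 T), LineCoherent (curl (u t)) (c t) β K) ∨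
      (0 < β ∧ β ≤ 1 ∧
        MemLp c (ENNReal.ofReal (2 * (1 + β) / β ^ 2)) (volume.restrict (Ioo 0 T)) ∧
        ∀ᵐ t ∂volume.restrict (Ioo 0 T),
          LineCoherent (curl (u t)) (c t) β (-1) ∨ DirCoherent (curl (u t)) (c t) β K)) :
    (∃ A, ∀ t ∈ Ico 0 T, enstrophy (u t) ≤ A) ∧ ∃ M, ∀ t ∈ Ico 0 T, ∀ x i, |u t x i| ≤ M := by
  rcases hcoh with ⟨h0, h1, hc, hl⟩ | ⟨h0, h1, hc, hl⟩
  · exact Pool.Agent.R210.criterion h hν h0 h1 hc hl
  · refine Pool.Agent.R210.criterion2 h hν (K := K) h0 h1 hc ?_
    filter_upwards [hl] with t ht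
    rcases ht with ht | ht
    · left
      intro x y
      have hx : ∀ z : V, -1 < len z := fun z =>
        lt_of_lt_of_le (by norm_num) (Real.sqrt_nonneg _)
      exact ht x y (hx _) (hx _)
    · right
      exact ht

end Pool.Agent.N977.Shelf.VorticityLineCoherence
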